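import Pool.Agent.Lib.MP_359fef_co.U0
import Pool.Agent.Lib.MP_359fef_co_h79.Chi

/-!
# Task L2 for MP_359fef_co: reduction of Lagrangian relations
-/

namespace Pool.Agent.MP_359fef_co

open Finset Matrix Module

universe u

namespace L2

variable {K : Type u} [Field K] [Fintype K] {C : Cj K}

section prod

variable {W : Type u} [AddCommGroup W] [Module K W]

/-- The form `⟨x,y⟩ - ⟨x',y'⟩` on `W × W`. -/
def prodHerm (H : Herm C W) : Herm C (W × W) where
  f p r := H.f p.1 r.1 - H.f p.2 r.2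
  add_right := by
    intro x y z
    simp only [Prod.fst_add, Prod.snd_add, H.add_right]
    ring
  smul_right := by
    intro a x y
    simp only [Prod.smul_fst, Prod.smul_snd, H.smul_right]
    ring
  symm := by
    intro x y
    rw [H.symm x.1 y.1, H.symm x.2 y.2, map_sub]
  nondeg := by
    intro x hx
    have h1 : x.1 = 0 := by
      apply H.nondeg
      intro y
      have := hx (y, 0)
      simpa [H.zero_right] using this
    have h2 : x.2 = 0 := by
      apply H.nondeg
      intro y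
      have := hx (0, y)
      simpa [H.zero_right] using this
    exact Prod.ext h1 h2

theorem perp_of_isLag (H : Herm C W) (Λ : Submodule K (W × W)) (hΛ : IsLag H Λ) :
    (prodHerm H).perp Λ = Λ := by
  ext p
  rw [hΛ p]
  constructor
  · intro hp r hr
    have h := hp r hr
    have h' : H.f r.1 p.1 - H.f r.2 p.2 = 0 := h
    have h'' := sub_eq_zero.1 h'
    rw [H.symm r.1 p.1, H.symm r.2 p.2, h'']
  · intro hp r hr
    have h := hp r hr
    show H.f r.1 p.1 - H.f r.2 p.2 = 0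
    rw [H.symm p.1 r.1, H.symm p.2 r.2, h, sub_self]

theorem finrank_of_isLag [Finite W] (H : Herm C W) (Λ : Submodule K (W × W)) (hΛ : IsLag H Λ) :
    finrank K Λ = finrank K W := by
  have h := (prodHerm H).finrank_perp Λ
  rw [perp_of_isLag H Λ hΛ] at h
  have : Module.Finite K W := Module.Finite.of_finite
  rw [Module.finrank_prod] at h
  omega

/-- the graph case -/
theorem graph_case [Finite W] (H : Herm C W) (Λ : Submodule K (W × W)) (hΛ : IsLag H Λ)
    (hz : ∀ z, (z, 0) ∈ Λ → z = 0) :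
    ∃ h : W ≃ₗ[K] W, (∀ x y, H.f (h x) (h y) = H.f x y) ∧ Λ = h.toLinearMap.graph := by
  have hfW : Module.Finite K W := Module.Finite.of_finite
  have hdim := finrank_of_isLag H Λ hΛ
  -- second projection
  let p2 : Λ →ₗ[K] W := (LinearMap.snd K W W).comp Λ.subtype
  have hinj : Function.Injective p2 := by
    rw [← LinearMap.ker_eq_bot, LinearMap.ker_eq_bot']
    rintro ⟨⟨x, y⟩, hxy⟩ h0
    have hy : y = 0 := h0
    subst hy
    have := hz x hxy
    subst this
    rfl
  have hbij : Function.Bijective p2 :=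
    ⟨hinj, (LinearMap.injective_iff_surjective_of_finrank_eq_finrank hdim).1 hinj⟩
  let e2 : Λ ≃ₗ[K] W := LinearEquiv.ofBijective p2 hbij
  let p1 : Λ →ₗ[K] W := (LinearMap.fst K W W).comp Λ.subtype
  let k : W →ₗ[K] W := p1.comp e2.symm.toLinearMap
  have hk : ∀ y, (k y, y) ∈ Λ := by
    intro y
    have h1 := (e2.symm y).2
    have h2 : p2 (e2.symm y) = y := e2.apply_symm_apply y
    have h3 : ((e2.symm y : Λ) : W × W) = (k y, y) := Prod.ext rfl h2
    rw [← h3]
    exact h1
  have hkiso : ∀ x y, H.f (k x) (k y) = H.f x y := by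
    intro x y
    exact ((hΛ _).1 (hk x)) _ (hk y)
  have hkinj : Function.Injective k := by
    rw [← LinearMap.ker_eq_bot, LinearMap.ker_eq_bot']
    intro x hx
    apply H.nondeg
    intro y
    rw [← hkiso, hx, H.zero_left]
  let e : W ≃ₗ[K] W := LinearEquiv.ofInjectiveEndo k hkinj
  have he : ∀ x, e x = k x := fun x => rfl
  refine ⟨e.symm, ?_, ?_⟩
  · intro x y
    have := hkiso (e.symm x) (e.symm y)
    rw [← he, ← he, e.apply_symm_apply, e.apply_symm_apply] at this
    exact this.symm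
  · ext ⟨x, y⟩
    rw [LinearMap.mem_graph_iff]
    constructor
    · intro hxy
      have h1 := hk y
      have h2 : ((x, y) : W × W) - (k y, y) ∈ Λ := Λ.sub_mem hxy h1
      have h3 : ((x, y) : W × W) - (k y, y) = (x - k y, 0) := by simp
      rw [h3] at h2
      have h4 := hz _ h2
      have h5 : x = k y := sub_eq_zero.1 h4
      show y = e.symm x
      rw [h5, ← he, e.symm_apply_apply]
    · intro hxy
      have h1 : y = e.symm x := hxy
      have h2 : x = k y := by rw [h1, ← he, e.apply_symm_apply]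
      rw [h2]
      exact hk y

end prod

section hyp

variable {W : Type u} [AddCommGroup W] [Module K W] (H : Herm C W) (z z' : W)

/-- `{z,z'}^⊥` -/
def Wp : Submodule K W := H.perp (Submodule.span K {z, z'})

theorem mem_Wp {x : W} : x ∈ Wp H z z' ↔ H.f z x = 0 ∧ H.f z' x = 0 := by
  constructor
  · intro hx
    exact ⟨hx z (Submodule.subset_span (by simp)), hx z' (Submodule.subset_span (by simp))⟩
  · rintro ⟨h1, h2⟩ y hy
    induction hy using Submodule.span_induction with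
    | mem y hy =>
      rcases hy with rfl | hy
      · exact h1
      · rw [Set.mem_singleton_iff] at hy
        rw [hy]
        exact h2
    | zero => exact H.zero_left x
    | add a b _ _ ha hb => rw [H.add_left, ha, hb, add_zero]
    | smul r a _ ha => rw [H.smul_left, ha, mul_zero]

variable (hzz : H.f z z = 0) (hz'z' : H.f z' z' = 0) (hzz' : H.f z z' = 1)

include hzz' in
theorem hz'z : H.f z' z = 1 := by
  rw [H.symm z z', hzz', map_one]

include hzz hz'z' hzz' in
/-- the projection to `W'` -/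
theorem pr_mem (x : W) : x - H.f z' x • z - H.f z x • z' ∈ Wp H z z' := by
  have h1 := hz'z H z z' hzz'
  rw [mem_Wp]
  constructor
  · rw [H.sub_right, H.sub_right, H.smul_right, H.smul_right, hzz, hzz']
    ring
  · rw [H.sub_right, H.sub_right, H.smul_right, H.smul_right, hz'z', h1]
    ring

/-- the restricted form -/
def Hp (hzz : H.f z z = 0) (hz'z' : H.f z' z' = 0) (hzz' : H.f z z' = 1) :
    Herm C (Wp H z z') where
  f x y := H.f x y
  add_right := fun x y w => H.add_right x y w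
  smul_right := fun a x y => H.smul_right a x y
  symm := fun x y => H.symm x y
  nondeg := by
    intro x hx
    have h0 : (x : W) = 0 := by
      apply H.nondeg
      intro y
      have h1 := hx ⟨_, pr_mem H z z' hzz hz'z' hzz' y⟩
      have h1' : H.f x (y - H.f z' y • z - H.f z y • z') = 0 := h1
      have hx1 := (mem_Wp H z z').1 x.2
      have hxz : H.f x z = 0 := by rw [H.symm z x, hx1.1, map_zero]
      have hxz' : H.f x z' = 0 := by rw [H.symm z' x, hx1.2, map_zero]
      rw [H.sub_right, H.sub_right, H.smul_right, H.smul_right, hxz, hxz'] at h1'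
      simpa using h1'
    exact Subtype.ext h0

theorem Hp_f (x y : Wp H z z') : (Hp H z z' hzz hz'z' hzz').f x y = H.f x y := rfl

include hzz hz'z' hzz' in
theorem finrank_Wp [Finite W] : finrank K (Wp H z z') + 2 = finrank K W := by
  have h := H.finrank_perp (Submodule.span K {z, z'})
  have hli : LinearIndependent K ![z, z'] := by
    rw [LinearIndependent.pair_iff]
    intro s t hst
    have h1 : H.f z (s • z + t • z') = 0 := by rw [hst, H.zero_right]
    have h2 : H.f z' (s • z + t • z') = 0 := by rw [hst, H.zero_right]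
    rw [H.add_right, H.smul_right, H.smul_right, hzz, hzz'] at h1
    rw [H.add_right, H.smul_right, H.smul_right, hz'z', hz'z H z z' hzz'] at h2
    constructor
    · simpa using h2
    · simpa using h1
  have h2 : finrank K (Submodule.span K {z, z'}) = 2 := by
    have h3 := finrank_span_eq_card hli
    have h4 : Set.range ![z, z'] = {z, z'} := by
      ext x
      simp only [Set.mem_range, Fin.exists_fin_two, Set.mem_insert_iff, Set.mem_singleton_iff,
        Matrix.cons_val_zero, Matrix.cons_val_one]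
      constructor
      · rintro (h | h)
        · exact Or.inl h.symm
        · exact Or.inr h.symm
      · rintro (h | h)
        · exact Or.inl h.symm
        · exact Or.inr h.symm
    rw [h4] at h3
    simpa using h3
  rw [h2] at h
  show finrank K (H.perp (Submodule.span K {z, z'})) + 2 = finrank K W
  omega

/-- the reduced relation -/
def Lp (Λ : Submodule K (W × W)) : Submodule K (Wp H z z' × Wp H z z') where
  carrier := {p | ∃ β : K, ((p.1 : W), (p.2 : W) + β • z) ∈ Λ}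
  add_mem' := by
    rintro a b ⟨α, h1⟩ ⟨β, h2⟩
    refine ⟨α + β, ?_⟩
    have := Λ.add_mem h1 h2
    convert this using 1
    ext
    · simp
    · simp only [Prod.snd_add, Submodule.coe_add, add_smul]
      abel
  zero_mem' := ⟨0, by
    show ((0 : W), (0 : W) + (0 : K) • z) ∈ Λ
    rw [zero_smul, add_zero]
    exact Λ.zero_mem⟩
  smul_mem' := by
    rintro r a ⟨α, h1⟩
    refine ⟨r * α, ?_⟩
    have := Λ.smul_mem r h1
    convert this using 1
    ext
    · simp
    · simp [smul_add, mul_smul]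

theorem mem_Lp (Λ : Submodule K (W × W)) (p : Wp H z z' × Wp H z z') :
    p ∈ Lp H z z' Λ ↔ ∃ β : K, ((p.1 : W), (p.2 : W) + β • z) ∈ Λ := Iff.rfl

end hyp

section hyp2

variable {W : Type u} [AddCommGroup W] [Module K W]

variable {H : Herm C W} {z z' : W} {Λ : Submodule K (W × W)}

theorem orth_fst (hΛ : IsLag H Λ) (hz : (z, 0) ∈ Λ) {r : W × W} (hr : r ∈ Λ) :
    H.f z r.1 = 0 := by
  have h := (hΛ _).1 hz r hr
  simpa [H.zero_left] using h

/-- an element of `Λ` whose second component is orthogonal to `z` reduces to `Λ'` -/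
theorem red_mem (hzz : H.f z z = 0) (hz'z' : H.f z' z' = 0) (hzz' : H.f z z' = 1)
    (hΛ : IsLag H Λ) (hz : (z, 0) ∈ Λ) {r : W × W} (hr : r ∈ Λ) (h2 : H.f z r.2 = 0) :
    ((⟨_, pr_mem H z z' hzz hz'z' hzz' r.1⟩ : Wp H z z'),
      (⟨_, pr_mem H z z' hzz hz'z' hzz' r.2⟩ : Wp H z z')) ∈ Lp H z z' Λ := by
  rw [mem_Lp]
  refine ⟨H.f z' r.2, ?_⟩
  have h1 := orth_fst hΛ hz hr
  have h3 : ((r.1 - H.f z' r.1 • z - H.f z r.1 • z'),
      (r.2 - H.f z' r.2 • z - H.f z r.2 • z') + H.f z' r.2 • z) =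
      r - H.f z' r.1 • ((z, 0) : W × W) := by
    ext
    · simp [h1]
    · simp [h2]
  show ((r.1 - H.f z' r.1 • z - H.f z r.1 • z'),
      (r.2 - H.f z' r.2 • z - H.f z r.2 • z') + H.f z' r.2 • z) ∈ Λ
  rw [h3]
  exact Λ.sub_mem hr (Λ.smul_mem _ hz)

theorem isLag_Lp (hzz : H.f z z = 0) (hz'z' : H.f z' z' = 0) (hzz' : H.f z z' = 1)
    (hΛ : IsLag H Λ) (hz : (z, 0) ∈ Λ) :
    IsLag (Hp H z z' hzz hz'z' hzz') (Lp H z z' Λ) := by
  have horth : ∀ x : Wp H z z', H.f x z = 0 := by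
    intro x
    rw [H.symm z x, ((mem_Wp H z z').1 x.2).1, map_zero]
  have horth2 : ∀ x : Wp H z z', H.f z x = 0 := fun x => ((mem_Wp H z z').1 x.2).1
  have horth' : ∀ x : Wp H z z', H.f x z' = 0 := by
    intro x
    rw [H.symm z' x, ((mem_Wp H z z').1 x.2).2, map_zero]
  rintro ⟨x, y⟩
  constructor
  · rintro ⟨β, hβ⟩ ⟨x', y'⟩ ⟨β', hβ'⟩
    have h := (hΛ _).1 hβ _ hβ'
    simp only [H.add_left, H.add_right, H.smul_left, H.smul_right, hzz, horth, horth2,
      mul_zero, add_zero] at h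
    exact h
  · intro hxy
    -- the functionals
    have key : ∀ r ∈ Λ, H.f z r.2 = 0 → H.f x r.1 - H.f y r.2 = 0 := by
      intro r hr h2
      have h := hxy _ (red_mem hzz hz'z' hzz' hΛ hz hr h2)
      simp only [Hp_f] at h
      simp only [H.sub_right, H.smul_right, horth, horth', mul_zero, sub_zero] at h
      rw [h, sub_self]
    have hc : ∃ c : K, ∀ r ∈ Λ, H.f x r.1 - H.f y r.2 = c * H.f z r.2 := by
      by_cases h0 : ∀ r ∈ Λ, H.f z r.2 = 0
      · exact ⟨0, fun r hr => by rw [key r hr (h0 r hr), zero_mul]⟩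
      · push Not at h0
        obtain ⟨r0, hr0, hne⟩ := h0
        refine ⟨(H.f x r0.1 - H.f y r0.2) / H.f z r0.2, fun r hr => ?_⟩
        have h1 := key (r - (H.f z r.2 / H.f z r0.2) • r0) (Λ.sub_mem hr (Λ.smul_mem _ hr0)) (by
          simp only [Prod.snd_sub, Prod.smul_snd, H.sub_right, H.smul_right]
          field_simp
          ring)
        simp only [Prod.snd_sub, Prod.smul_snd, Prod.fst_sub, Prod.smul_fst, H.sub_right,
          H.smul_right] at h1
        field_simp
        field_simp at h1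
        linear_combination h1
    obtain ⟨c, hc⟩ := hc
    refine ⟨C.σ c, ?_⟩
    rw [hΛ]
    intro r hr
    show H.f x r.1 = H.f (y + C.σ c • z) r.2
    rw [H.add_left, H.smul_left, C.σ_σ]
    linear_combination hc r hr


theorem mulVec_eq_zero {n : ℕ} {g : Matrix (Fin n) (Fin n) K} (hg : InGU C.q g)
    {v : Fin n → K} (hv : ∀ i, ∑ j, g i j * v j = 0) : v = 0 := by
  have h1 : (gᵀ.map (fun x => x ^ C.q)) * g = 1 := mul_eq_one_comm.1 hg
  have h2 : g *ᵥ v = 0 := by
    funext i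
    exact hv i
  have h3 : (gᵀ.map (fun x => x ^ C.q)) *ᵥ (g *ᵥ v) = v := by
    rw [Matrix.mulVec_mulVec, h1, Matrix.one_mulVec]
  rw [← h3, h2, Matrix.mulVec_zero]

variable (H z z') in
/-- the projection to `W'` as a linear map -/
def prL (hzz : H.f z z = 0) (hz'z' : H.f z' z' = 0) (hzz' : H.f z z' = 1) :
    W →ₗ[K] Wp H z z' where
  toFun x := ⟨_, pr_mem H z z' hzz hz'z' hzz' x⟩
  map_add' := by
    intro x y
    apply Subtype.ext
    show x + y - H.f z' (x + y) • z - H.f z (x + y) • z' =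
      (x - H.f z' x • z - H.f z x • z') + (y - H.f z' y • z - H.f z y • z')
    rw [H.add_right, H.add_right, add_smul, add_smul]
    abel
  map_smul' := by
    intro r x
    apply Subtype.ext
    show r • x - H.f z' (r • x) • z - H.f z (r • x) • z' =
      r • (x - H.f z' x • z - H.f z x • z')
    rw [H.smul_right, H.smul_right, mul_smul, mul_smul, smul_sub, smul_sub]

theorem prL_coe (hzz : H.f z z = 0) (hz'z' : H.f z' z' = 0) (hzz' : H.f z z' = 1) (x : W) :
    (prL H z z' hzz hz'z' hzz' x : W) = x - H.f z' x • z - H.f z x • z' := rfl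

variable (H z') in
/-- `x ↦ ⟨z',x⟩` -/
def fL : W →ₗ[K] K where
  toFun x := H.f z' x
  map_add' := H.add_right z'
  map_smul' := fun r x => H.smul_right r z' x

theorem solL_orth (hΛ : IsLag H Λ) (hz : (z, 0) ∈ Λ) {n : ℕ} {g : Matrix (Fin n) (Fin n) K}
    (hg : InGU C.q g) {b : Fin n → W} (hb : b ∈ solL Λ g) (i : Fin n) : H.f z (b i) = 0 := by
  have h := mulVec_eq_zero (C := C) hg (v := fun j => H.f z (b j)) (by
    intro i
    have h1 := orth_fst hΛ hz (hb i)
    have h2 : fL H z (∑ j, g i j • b j) = 0 := h1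
    rw [map_sum] at h2
    simp only [map_smul, smul_eq_mul] at h2
    exact h2)
  exact congrFun h i

variable (H z z' Λ) in
/-- the reduction of solutions -/
def T (hzz : H.f z z = 0) (hz'z' : H.f z' z' = 0) (hzz' : H.f z z' = 1)
    (hΛ : IsLag H Λ) (hz : (z, 0) ∈ Λ) {n : ℕ} (g : Matrix (Fin n) (Fin n) K)
    (hg : InGU C.q g) : solL Λ g →ₗ[K] solL (Lp H z z' Λ) g where
  toFun b := ⟨fun j => prL H z z' hzz hz'z' hzz' (b.1 j), by
    intro i
    have h := red_mem hzz hz'z' hzz' hΛ hz (b.2 i) (solL_orth hΛ hz hg b.2 i)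
    have h1 : (∑ j, g i j • prL H z z' hzz hz'z' hzz' (b.1 j)) =
        prL H z z' hzz hz'z' hzz' (∑ j, g i j • b.1 j) := by
      rw [map_sum]
      simp only [map_smul]
    rw [h1]
    exact h⟩
  map_add' := by
    intro a b
    apply Subtype.ext
    funext j
    exact map_add _ _ _
  map_smul' := by
    intro a b
    apply Subtype.ext
    funext j
    exact map_smul _ _ _

theorem lift_sol {n : ℕ} {g : Matrix (Fin n) (Fin n) K} (hz : (z, 0) ∈ Λ)
    {b : Fin n → Wp H z z'} {β : Fin n → K}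
    (hb : ∀ i, (((∑ j, g i j • b j : Wp H z z') : W), (b i : W) + β i • z) ∈ Λ) :
    (fun i => (b i : W) + β i • z) ∈ solL Λ g := by
  intro i
  have h1 := Λ.add_mem (hb i) (Λ.smul_mem (∑ j, g i j * β j) hz)
  convert h1 using 1
  ext
  · rw [Prod.fst_add, Prod.smul_fst]
    simp only [smul_add, Finset.sum_add_distrib, Finset.sum_smul, mul_smul]
    congr 1
    simp only [Submodule.coe_sum, Submodule.coe_smul]
  · simp

theorem pr_lift (hzz : H.f z z = 0) (hz'z' : H.f z' z' = 0) (hzz' : H.f z z' = 1)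
    (x : Wp H z z') (β : K) : prL H z z' hzz hz'z' hzz' ((x : W) + β • z) = x := by
  have h1 := (mem_Wp H z z').1 x.2
  apply Subtype.ext
  rw [prL_coe, H.add_right, H.add_right, H.smul_right, H.smul_right, h1.1, h1.2, hzz,
    hz'z H z z' hzz']
  simp

theorem fL_lift (hzz' : H.f z z' = 1) (x : Wp H z z') (β : K) :
    fL H z' ((x : W) + β • z) = β := by
  have h1 := (mem_Wp H z z').1 x.2
  show H.f z' ((x : W) + β • z) = β
  rw [H.add_right, H.smul_right, h1.2, hz'z H z z' hzz']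
  simp

theorem T_surj (hzz : H.f z z = 0) (hz'z' : H.f z' z' = 0) (hzz' : H.f z z' = 1)
    (hΛ : IsLag H Λ) (hz : (z, 0) ∈ Λ) {n : ℕ} (g : Matrix (Fin n) (Fin n) K)
    (hg : InGU C.q g) : Function.Surjective (T H z z' Λ hzz hz'z' hzz' hΛ hz g hg) := by
  rintro ⟨b, hb⟩
  have hb' : ∀ i, ∃ β : K, (((∑ j, g i j • b j : Wp H z z') : W), (b i : W) + β • z) ∈ Λ :=
    fun i => hb i
  choose β hβ using hb'
  refine ⟨⟨fun i => (b i : W) + β i • z, lift_sol hz hβ⟩, ?_⟩
  apply Subtype.ext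
  funext j
  exact pr_lift hzz hz'z' hzz' (b j) (β j)

theorem T_inj (hzz : H.f z z = 0) (hz'z' : H.f z' z' = 0) (hzz' : H.f z z' = 1)
    (hΛ : IsLag H Λ) (hz : (z, 0) ∈ Λ) {n : ℕ} (g : Matrix (Fin n) (Fin n) K)
    (hg : InGU C.q g) (h0 : ((0 : W), z) ∉ Λ) :
    Function.Injective (T H z z' Λ hzz hz'z' hzz' hΛ hz g hg) := by
  rw [← LinearMap.ker_eq_bot, LinearMap.ker_eq_bot']
  rintro ⟨b, hb⟩ hTb
  have h1 : ∀ j, b j = H.f z' (b j) • z := by
    intro j
    have h2 : prL H z z' hzz hz'z' hzz' (b j) = 0 := congrFun (congrArg Subtype.val hTb) j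
    have h3 := congrArg Subtype.val h2
    rw [prL_coe, solL_orth hΛ hz hg hb j] at h3
    have h4 : b j - H.f z' (b j) • z = 0 := by simpa using h3
    exact sub_eq_zero.1 h4
  apply Subtype.ext
  funext i
  show b i = 0
  have h2 := hb i
  have h3 : (∑ j, g i j • b j) = (∑ j, g i j * H.f z' (b j)) • z := by
    rw [Finset.sum_smul]
    refine Finset.sum_congr rfl (fun j _ => ?_)
    rw [mul_smul, ← h1 j]
  rw [h3] at h2
  have h4 := Λ.sub_mem h2 (Λ.smul_mem (∑ j, g i j * H.f z' (b j)) hz)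
  have h5 : (((∑ j, g i j * H.f z' (b j)) • z, b i) : W × W) -
      (∑ j, g i j * H.f z' (b j)) • ((z, 0) : W × W) = H.f z' (b i) • ((0 : W), z) := by
    ext
    · simp
    · simp [← h1 i]
  rw [h5] at h4
  by_contra hne
  have h6 : H.f z' (b i) ≠ 0 := by
    intro h7
    apply hne
    rw [h1 i, h7, zero_smul]
  apply h0
  have h8 := Λ.smul_mem (H.f z' (b i))⁻¹ h4
  rwa [smul_smul, inv_mul_cancel₀ h6, one_smul] at h8

theorem finrank_T0 [Finite W] (hzz : H.f z z = 0) (hz'z' : H.f z' z' = 0) (hzz' : H.f z z' = 1)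
    (hΛ : IsLag H Λ) (hz : (z, 0) ∈ Λ) {n : ℕ} (g : Matrix (Fin n) (Fin n) K)
    (hg : InGU C.q g) (h0 : ((0 : W), z) ∉ Λ) :
    finrank K (solL Λ g) = finrank K (solL (Lp H z z' Λ) g) :=
  (LinearEquiv.ofBijective (T H z z' Λ hzz hz'z' hzz' hΛ hz g hg)
    ⟨T_inj hzz hz'z' hzz' hΛ hz g hg h0, T_surj hzz hz'z' hzz' hΛ hz g hg⟩).finrank_eq

theorem finrank_T1 [Finite W] (hzz : H.f z z = 0) (hz'z' : H.f z' z' = 0) (hzz' : H.f z z' = 1)
    (hΛ : IsLag H Λ) (hz : (z, 0) ∈ Λ) {n : ℕ} (g : Matrix (Fin n) (Fin n) K)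
    (hg : InGU C.q g) (h0 : ((0 : W), z) ∈ Λ) :
    finrank K (solL Λ g) = finrank K (solL (Lp H z z' Λ) g) + n := by
  have hfW : Module.Finite K W := Module.Finite.of_finite
  let F : solL Λ g →ₗ[K] (Fin n → K) :=
    (LinearMap.pi (fun j => (fL H z').comp (LinearMap.proj j))).comp (solL Λ g).subtype
  let U : solL Λ g →ₗ[K] (solL (Lp H z z' Λ) g × (Fin n → K)) :=
    (T H z z' Λ hzz hz'z' hzz' hΛ hz g hg).prod F
  have hF : ∀ b : solL Λ g, ∀ j, F b j = H.f z' (b.1 j) := fun b j => rfl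
  have hbij : Function.Bijective U := by
    constructor
    · rw [← LinearMap.ker_eq_bot, LinearMap.ker_eq_bot']
      rintro ⟨b, hb⟩ hTb
      have hT : T H z z' Λ hzz hz'z' hzz' hΛ hz g hg ⟨b, hb⟩ = 0 := congrArg Prod.fst hTb
      have hF0 : F ⟨b, hb⟩ = 0 := congrArg Prod.snd hTb
      apply Subtype.ext
      funext j
      have h2 : prL H z z' hzz hz'z' hzz' (b j) = 0 := congrFun (congrArg Subtype.val hT) j
      have h3 := congrArg Subtype.val h2
      have h4 : H.f z' (b j) = 0 := congrFun hF0 j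
      rw [prL_coe, solL_orth hΛ hz hg hb j, h4] at h3
      simpa using h3
    · rintro ⟨⟨b, hb⟩, β⟩
      have hβ : ∀ i, (((∑ j, g i j • b j : Wp H z z') : W), (b i : W) + β i • z) ∈ Λ := by
        intro i
        obtain ⟨β', hβ'⟩ := hb i
        have h1 := Λ.add_mem hβ' (Λ.smul_mem (β i - β') h0)
        convert h1 using 1
        ext
        · simp
        · rw [Prod.snd_add, Prod.smul_snd]
          simp only [sub_smul]
          abel
      refine ⟨⟨fun i => (b i : W) + β i • z, lift_sol hz hβ⟩, ?_⟩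
      apply Prod.ext
      · apply Subtype.ext
        funext j
        exact pr_lift hzz hz'z' hzz' (b j) (β j)
      · funext j
        exact fL_lift hzz' (b j) (β j)
  have h := (LinearEquiv.ofBijective U hbij).finrank_eq
  rw [h, Module.finrank_prod]
  simp


/-! ### the poset part -/

theorem DD_orth (hΛ : IsLag H Λ) (hz : (z, 0) ∈ Λ) {D : Submodule K W} (hD : D ∈ DD H Λ)
    {x : W} (hx : x ∈ D) : H.f z x = 0 := by
  obtain ⟨x', _, h⟩ := hD.2 x hx
  exact orth_fst hΛ hz h

/-- adjoining `z` -/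
theorem cl_mem (hzz : H.f z z = 0) (hΛ : IsLag H Λ) (hz : (z, 0) ∈ Λ) {D : Submodule K W}
    (hD : D ∈ DD H Λ) : D ⊔ Submodule.span K {z} ∈ DD H Λ := by
  constructor
  · intro x hx y hy
    obtain ⟨x1, hx1, x2, hx2, rfl⟩ := Submodule.mem_sup.1 hx
    obtain ⟨y1, hy1, y2, hy2, rfl⟩ := Submodule.mem_sup.1 hy
    obtain ⟨r, rfl⟩ := Submodule.mem_span_singleton.1 hx2
    obtain ⟨t, rfl⟩ := Submodule.mem_span_singleton.1 hy2
    have h1 := DD_orth hΛ hz hD hx1
    have h2 := DD_orth hΛ hz hD hy1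
    have h3 : H.f x1 z = 0 := by rw [H.symm z x1, h1, map_zero]
    simp only [H.add_left, H.add_right, H.smul_left, H.smul_right, hzz, h2, h3,
      hD.1 x1 hx1 y1 hy1, mul_zero, add_zero]
  · intro x hx
    obtain ⟨x1, hx1, x2, hx2, rfl⟩ := Submodule.mem_sup.1 hx
    obtain ⟨r, rfl⟩ := Submodule.mem_span_singleton.1 hx2
    obtain ⟨x', hx', h⟩ := hD.2 x1 hx1
    refine ⟨x', Submodule.mem_sup_left hx', ?_⟩
    have h1 := Λ.add_mem h (Λ.smul_mem r hz)
    convert h1 using 1
    ext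
    · simp
    · simp

theorem chi_nonclosed [Finite W] (hzz : H.f z z = 0) (hΛ : IsLag H Λ) (hz : (z, 0) ∈ Λ)
    (D : Submodule K W) (hD : D ∈ DD H Λ) (hzD : z ∉ D) : chi (DD H Λ) D = 0 := by
  refine chi_closure (DD H Λ) D hD (fun E => E ⊔ Submodule.span K {z}) ?_ ?_ ?_ ?_ ?_
  · intro E hE _
    exact cl_mem hzz hΛ hz hE
  · intro E _ _
    exact le_sup_left
  · intro E _ _ F _ hEF
    exact sup_le_sup_right hEF _
  · intro E _ _
    show (E ⊔ Submodule.span K {z}) ⊔ Submodule.span K {z} = E ⊔ Submodule.span K {z}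
    rw [sup_assoc, sup_idem]
  · intro h
    apply hzD
    rw [← h]
    exact Submodule.mem_sup_right (Submodule.mem_span_singleton_self z)

variable (H z z') in
/-- the embedding of subspaces of `W'` -/
def ph (D : Submodule K (Wp H z z')) : Submodule K W :=
  D.map (Wp H z z').subtype ⊔ Submodule.span K {z}

theorem mem_ph {D : Submodule K (Wp H z z')} {x : W} :
    x ∈ ph H z z' D ↔ ∃ y ∈ D, ∃ r : K, (y : W) + r • z = x := by
  unfold ph
  rw [Submodule.mem_sup]
  constructor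
  · rintro ⟨a, ha, b, hb, rfl⟩
    obtain ⟨y, hy, rfl⟩ := Submodule.mem_map.1 ha
    obtain ⟨r, rfl⟩ := Submodule.mem_span_singleton.1 hb
    exact ⟨y, hy, r, rfl⟩
  · rintro ⟨y, hy, r, rfl⟩
    exact ⟨y, Submodule.mem_map.2 ⟨y, hy, rfl⟩, r • z,
      Submodule.mem_span_singleton.2 ⟨r, rfl⟩, rfl⟩

theorem coe_mem_ph (hzz : H.f z z = 0) (hz'z' : H.f z' z' = 0) (hzz' : H.f z z' = 1)
    {D : Submodule K (Wp H z z')} {x : Wp H z z'} : (x : W) ∈ ph H z z' D ↔ x ∈ D := by
  rw [mem_ph]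
  constructor
  · rintro ⟨y, hy, r, h⟩
    have h1 := pr_lift hzz hz'z' hzz' y r
    have h2 := pr_lift hzz hz'z' hzz' x 0
    rw [zero_smul, add_zero] at h2
    rw [h, h2] at h1
    rw [h1]
    exact hy
  · intro hx
    exact ⟨x, hx, 0, by simp⟩

theorem ph_le (hzz : H.f z z = 0) (hz'z' : H.f z' z' = 0) (hzz' : H.f z z' = 1)
    (D E : Submodule K (Wp H z z')) : ph H z z' D ≤ ph H z z' E ↔ D ≤ E := by
  constructor
  · intro h x hx
    rw [← coe_mem_ph hzz hz'z' hzz' (D := E)]
    exact h ((coe_mem_ph hzz hz'z' hzz').2 hx)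
  · intro h
    exact sup_le_sup_right (Submodule.map_mono h) _

theorem ph_mem (hzz : H.f z z = 0) (hz'z' : H.f z' z' = 0) (hzz' : H.f z z' = 1)
    (hz : (z, 0) ∈ Λ) (D : Submodule K (Wp H z z')) :
    D ∈ DD (Hp H z z' hzz hz'z' hzz') (Lp H z z' Λ) ↔ ph H z z' D ∈ DD H Λ := by
  constructor
  · rintro ⟨h1, h2⟩
    constructor
    · intro x0 hx0 y0 hy0
      obtain ⟨x, hx, r, rfl⟩ := mem_ph.1 hx0
      obtain ⟨y, hy, t, rfl⟩ := mem_ph.1 hy0
      have h3 := ((mem_Wp H z z').1 y.2).1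
      have h4 : H.f x z = 0 := by rw [H.symm z x, ((mem_Wp H z z').1 x.2).1, map_zero]
      have h5 : H.f x y = 0 := h1 x hx y hy
      simp only [H.add_left, H.add_right, H.smul_left, H.smul_right, hzz, h3, h4, h5,
        mul_zero, add_zero]
    · intro x0 hx0
      obtain ⟨x, hx, r, rfl⟩ := mem_ph.1 hx0
      obtain ⟨y, hy, β, hβ⟩ := h2 x hx
      refine ⟨(y : W) + β • z, mem_ph.2 ⟨y, hy, β, rfl⟩, ?_⟩
      have h3 := Λ.add_mem hβ (Λ.smul_mem r hz)
      convert h3 using 1
      ext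
      · simp
      · simp
  · rintro ⟨h1, h2⟩
    constructor
    · intro x hx y hy
      exact h1 x ((coe_mem_ph hzz hz'z' hzz').2 hx) y ((coe_mem_ph hzz hz'z' hzz').2 hy)
    · intro x hx
      obtain ⟨w, hw, h⟩ := h2 x ((coe_mem_ph hzz hz'z' hzz').2 hx)
      obtain ⟨y, hy, r, rfl⟩ := mem_ph.1 hw
      exact ⟨y, hy, r, h⟩

theorem ph_surj (hzz : H.f z z = 0) (hz'z' : H.f z' z' = 0) (hzz' : H.f z z' = 1)
    (hΛ : IsLag H Λ) (hz : (z, 0) ∈ Λ) (D : Submodule K W) (hD : D ∈ DD H Λ) (hzD : z ∈ D) :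
    ∃ E, ph H z z' E = D := by
  refine ⟨D.comap (Wp H z z').subtype, ?_⟩
  ext x
  rw [mem_ph]
  constructor
  · rintro ⟨y, hy, r, rfl⟩
    exact D.add_mem hy (D.smul_mem r hzD)
  · intro hx
    have h1 := DD_orth hΛ hz hD hx
    refine ⟨prL H z z' hzz hz'z' hzz' x, ?_, H.f z' x, ?_⟩
    · show (prL H z z' hzz hz'z' hzz' x : W) ∈ D
      rw [prL_coe, h1, zero_smul, sub_zero]
      exact D.sub_mem hx (D.smul_mem _ hzD)
    · rw [prL_coe, h1]
      simp

theorem card_ph [Finite W] (hzz : H.f z z = 0) (hz'z' : H.f z' z' = 0) (hzz' : H.f z z' = 1)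
    (D : Submodule K (Wp H z z')) : Nat.card (ph H z z' D) = C.q ^ 2 * Nat.card D := by
  have e : (D × K) ≃ ph H z z' D := by
    refine Equiv.ofBijective (fun p => ⟨((p.1 : Wp H z z') : W) + p.2 • z,
      mem_ph.2 ⟨p.1, p.1.2, p.2, rfl⟩⟩) ⟨?_, ?_⟩
    · rintro ⟨x, r⟩ ⟨y, t⟩ h
      have h0 : ((x : Wp H z z') : W) + r • z = ((y : Wp H z z') : W) + t • z :=
        congrArg Subtype.val h
      have h1 := pr_lift hzz hz'z' hzz' (x : Wp H z z') r
      have h2 := fL_lift hzz' (x : Wp H z z') r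
      rw [h0, pr_lift hzz hz'z' hzz'] at h1
      rw [h0, fL_lift hzz'] at h2
      rw [Prod.mk.injEq]
      exact ⟨Subtype.ext h1.symm, h2.symm⟩
    · rintro ⟨w, hw⟩
      obtain ⟨y, hy, r, h⟩ := mem_ph.1 hw
      exact ⟨(⟨y, hy⟩, r), Subtype.ext h⟩
  rw [← Nat.card_congr e, Nat.card_prod, Nat.card_eq_fintype_card (α := K), C.card_eq, mul_comm]

theorem nt_red [Finite W] (hzz : H.f z z = 0) (hz'z' : H.f z' z' = 0) (hzz' : H.f z z' = 1)
    (hΛ : IsLag H Λ) (hz : (z, 0) ∈ Λ) (m : ℕ) :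
    nt H Λ m = (C.q : ℚ) ^ (2 * m) * nt (Hp H z z' hzz hz'z' hzz') (Lp H z z' Λ) m := by
  classical
  unfold nt
  let _ := Fintype.ofFinite (Submodule K W)
  let _ := Fintype.ofFinite (Submodule K (Wp H z z'))
  have hphi : Function.Injective (ph H z z') := by
    intro D E h
    apply le_antisymm
    · exact (ph_le hzz hz'z' hzz' D E).1 h.le
    · exact (ph_le hzz hz'z' hzz' E D).1 h.ge
  have htr := chi_transport (DD H Λ) (DD (Hp H z z' hzz hz'z' hzz') (Lp H z z' Λ))
    (fun D => z ∈ D) (ph H z z') (ph_le hzz hz'z' hzz') (ph_mem hzz hz'z' hzz' hz)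
    (fun D _ => Submodule.mem_sup_right (Submodule.mem_span_singleton_self z))
    (ph_surj hzz hz'z' hzz' hΛ hz)
    (fun D hD hzD => chi_nonclosed hzz hΛ hz D hD hzD)
  have h1 : ∑ D : Submodule K W, (Nat.card D : ℚ) ^ m * (chi (DD H Λ) D : ℚ) =
      ∑ D ∈ univ.image (ph H z z'), (Nat.card D : ℚ) ^ m * (chi (DD H Λ) D : ℚ) := by
    symm
    apply Finset.sum_subset (Finset.subset_univ _)
    intro D _ hD
    have h2 : chi (DD H Λ) D = 0 := by
      by_cases h3 : D ∈ DD H Λ
      · apply chi_nonclosed hzz hΛ hz D h3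
        intro h4
        obtain ⟨E, hE⟩ := ph_surj hzz hz'z' hzz' hΛ hz D h3 h4
        exact hD (Finset.mem_image.2 ⟨E, Finset.mem_univ _, hE⟩)
      · exact chi_off _ _ h3
    rw [h2]
    simp
  rw [h1, Finset.sum_image (fun a _ b _ h => hphi h), Finset.mul_sum]
  refine Finset.sum_congr rfl (fun D _ => ?_)
  have h3 : chi (DD H Λ) (ph H z z' D) =
      chi (DD (Hp H z z' hzz hz'z' hzz') (Lp H z z' Λ)) D := by
    by_cases h4 : D ∈ DD (Hp H z z' hzz hz'z' hzz') (Lp H z z' Λ)
    · exact (htr D h4).symm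
    · rw [chi_off _ _ h4, chi_off _ _ (fun h5 => h4 ((ph_mem hzz hz'z' hzz' hz D).2 h5))]
  rw [h3, card_ph hzz hz'z' hzz']
  push_cast
  rw [mul_pow, ← pow_mul]
  ring

end hyp2

/-- in a nondegenerate space every nonzero isotropic vector is part of a hyperbolic pair -/
theorem exists_hyp {W : Type u} [AddCommGroup W] [Module K W] (H : Herm C W) {z : W}
    (hne : z ≠ 0) (hzz : H.f z z = 0) : ∃ z', H.f z' z' = 0 ∧ H.f z z' = 1 := by
  have h1 : ∃ y, H.f z y ≠ 0 := by
    by_contra h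
    push Not at h
    exact hne (H.nondeg z h)
  obtain ⟨y, hy⟩ := h1
  -- normalise
  have h2 : H.f z ((H.f z y)⁻¹ • y) = 1 := by
    rw [H.smul_right, inv_mul_cancel₀ hy]
  generalize (H.f z y)⁻¹ • y = y1 at h2
  have hyy : C.σ (H.f y1 y1) = H.f y1 y1 := (H.symm y1 y1).symm
  obtain ⟨t, ht⟩ := C.exists_tr (- H.f y1 y1) (by rw [map_neg, hyy])
  refine ⟨y1 + t • z, ?_, ?_⟩
  · have h3 : H.f y1 z = 1 := by rw [H.symm z y1, h2, map_one]
    simp only [H.add_left, H.add_right, H.smul_left, H.smul_right, hzz, h2, h3]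
    linear_combination ht
  · rw [H.add_right, H.smul_right, hzz, h2]
    ring

end L2

variable {K : Type u} [Field K] [Fintype K] {C : Cj K}

/-- Task L2 (reduction): a Lagrangian relation is the graph of an isometry, or reduces to a
space of dimension two less. -/
theorem reduction {W : Type u} [AddCommGroup W] [Module K W] [Finite W] (H : Herm C W)
    (Λ : Submodule K (W × W)) (hΛ : IsLag H Λ) :
    (∃ h : W ≃ₗ[K] W, (∀ x y, H.f (h x) (h y) = H.f x y) ∧ Λ = h.toLinearMap.graph) ∨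
    (∃ (W' : Type u) (_ : AddCommGroup W') (_ : Module K W') (_ : Finite W') (H' : Herm C W')
      (Λ' : Submodule K (W' × W')) (δ : ℕ), IsLag H' Λ' ∧ finrank K W' + 2 = finrank K W ∧
      (∀ m, nt H Λ m = (C.q : ℚ) ^ (2 * m) * nt H' Λ' m) ∧
      ∀ (n : ℕ) (g : Matrix (Fin n) (Fin n) K), InGU C.q g →
        KR C Λ g = C.X ^ (n * δ) * KR C Λ' g) := by
  classical
  by_cases hcase : ∀ z, (z, 0) ∈ Λ → z = 0
  · exact Or.inl (L2.graph_case H Λ hΛ hcase)
  · right
    push Not at hcase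
    obtain ⟨z, hz, hne⟩ := hcase
    have hzz : H.f z z = 0 := by
      have h := (hΛ _).1 hz _ hz
      simpa [H.zero_left] using h
    obtain ⟨z', hz'z', hzz'⟩ := L2.exists_hyp H hne hzz
    refine ⟨L2.Wp H z z', inferInstance, inferInstance, inferInstance,
      L2.Hp H z z' hzz hz'z' hzz', L2.Lp H z z' Λ, if ((0 : W), z) ∈ Λ then 1 else 0,
      L2.isLag_Lp hzz hz'z' hzz' hΛ hz, L2.finrank_Wp H z z' hzz hz'z' hzz',
      L2.nt_red hzz hz'z' hzz' hΛ hz, ?_⟩
    intro n g hg
    unfold KR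
    by_cases h0 : ((0 : W), z) ∈ Λ
    · rw [L2.finrank_T1 hzz hz'z' hzz' hΛ hz g hg h0, if_pos h0, mul_one, pow_add, mul_comm]
    · rw [L2.finrank_T0 hzz hz'z' hzz' hΛ hz g hg h0, if_neg h0, mul_zero, pow_zero, one_mul]

end Pool.Agent.MP_359fef_co
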